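import Pool.Agent.Helper72.LSr.C0

/-!
Project LSr, piece LR-Cc: double counting and edges of a difference.
-/

namespace Pool.Agent.Helper88.LSr

open Finset
open scoped Classical
open Pool.Agent.Helper72.LSr

variable {V : Type} (G : SimpleGraph V)

/-- `(r+1) k_{r+1}` counts pairs (vertex, clique through it) -/
theorem succ_K (S : Finset V) (r : ℕ) :
    ((r : ℤ) + 1) * K G S (r + 1) = ∑ v ∈ S, K G (nb G S v) r := by
  induction r generalizing S with
  | zero =>
    rw [show (0 : ℕ) + 1 = 1 from rfl, K_one]
    rw [Finset.sum_congr rfl (fun v _ => K_zero G (nb G S v))]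
    simp
  | succ r ih =>
    induction S using Finset.induction_on with
    | empty => rw [K_empty]; simp
    | insert w S hw ihS =>
      have h1 : nb G (insert w S) w = nb G S w := by
        ext x
        rw [mem_nb, mem_nb, mem_insert]
        constructor
        · rintro ⟨h | h, h2⟩
          · subst h; exact absurd h2 (G.loopless.irrefl _)
          · exact ⟨h, h2⟩
        · rintro ⟨h, h2⟩; exact ⟨Or.inr h, h2⟩
      have h2 : ∀ v ∈ S, K G (nb G (insert w S) v) (r + 1) = K G (nb G S v) (r + 1) +
          (if G.Adj w v then K G (nb G (nb G S w) v) r else 0) := by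
        intro v hv
        by_cases hwv : G.Adj w v
        · rw [if_pos hwv]
          have h3 : nb G (insert w S) v = insert w (nb G S v) := by
            ext x
            rw [mem_nb, mem_insert, mem_insert, mem_nb]
            constructor
            · rintro ⟨h | h, h4⟩
              · exact Or.inl h
              · exact Or.inr ⟨h, h4⟩
            · rintro (h | ⟨h, h4⟩)
              · subst h; exact ⟨Or.inl rfl, hwv.symm⟩
              · exact ⟨Or.inr h, h4⟩
          have h4 : w ∉ nb G S v := fun h => hw (nb_subset G S v h)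
          rw [h3, K_insert G h4, nb_nb, nb_nb, inter_comm]
        · rw [if_neg hwv, add_zero]
          congr 1
          ext x
          rw [mem_nb, mem_insert, mem_nb]
          constructor
          · rintro ⟨h | h, h4⟩
            · subst h; exact absurd h4.symm hwv
            · exact ⟨h, h4⟩
          · rintro ⟨h, h4⟩; exact ⟨Or.inr h, h4⟩
      rw [sum_insert hw, h1, Finset.sum_congr rfl h2, sum_add_distrib, ← ihS, ← sum_filter]
      have h5 : ∑ v ∈ S.filter (fun v => G.Adj w v), K G (nb G (nb G S w) v) r =
          ((r : ℤ) + 1) * K G (nb G S w) (r + 1) := (ih (nb G S w)).symm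
      rw [h5, K_insert G hw]
      push_cast
      ring

/-- twice the number of edges -/
theorem two_K_two (S : Finset V) : 2 * K G S 2 = ∑ v ∈ S, ((nb G S v).card : ℤ) := by
  have h := succ_K G S 1
  rw [Finset.sum_congr rfl (fun v _ => K_one G (nb G S v))] at h
  rw [← h]
  push_cast
  ring

/-- edges of `N \ Q` -/
theorem K_two_sdiff (N Q : Finset V) (hQ : Q ⊆ N) :
    K G (N \ Q) 2 = K G N 2 - ∑ x ∈ Q, ((nb G N x).card : ℤ) + K G Q 2 := by
  induction Q using Finset.induction_on with
  | empty =>
    rw [show (2 : ℕ) = 1 + 1 from rfl, K_empty]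
    simp
  | insert a Q ha ih =>
    have hQ' : Q ⊆ N := (subset_insert a Q).trans hQ
    have haN : a ∈ N \ Q := by
      rw [mem_sdiff]; exact ⟨hQ (mem_insert_self a Q), ha⟩
    have h1 := K_erase G haN 1
    have h2 : (N \ Q).erase a = N \ insert a Q := by
      ext x
      simp only [mem_erase, mem_sdiff, mem_insert]
      tauto
    rw [h2, K_one, nb_sdiff] at h1
    have h3 := K_insert G ha 1
    rw [K_one] at h3
    have h4 : nb G N a ∩ Q = nb G Q a := by
      ext x
      rw [mem_inter, mem_nb, mem_nb]
      constructor
      · rintro ⟨⟨_, h⟩, h'⟩; exact ⟨h', h⟩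
      · rintro ⟨h, h'⟩; exact ⟨⟨hQ' h, h'⟩, h⟩
    have h5 : ((nb G N a \ Q).card : ℤ) = (nb G N a).card - (nb G Q a).card := by
      have h6 := card_sdiff_add_card_inter (nb G N a) Q
      rw [h4] at h6
      have h7 : ((nb G N a \ Q).card : ℤ) + (nb G Q a).card = (nb G N a).card := by
        exact_mod_cast h6
      linarith
    have h8 := ih hQ'
    rw [sum_insert ha]
    rw [show (2 : ℕ) = 1 + 1 from rfl] at h8 ⊢
    rw [h3]
    rw [h5] at h1
    linarith

end Pool.Agent.Helper88.LSr
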