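import Pool.Agent.Helper72.LSr.S6e

/-!
Project LSr, piece LR-M9: the case `X_w = 1` of the main lemma.
-/

namespace Pool.Agent.Helper88.LSr

open Finset
open scoped Classical
open Pool.Agent.Helper72.LSr

variable {V : Type} {j : ℕ} {G : SimpleGraph V} {S : Finset V} {k A B : ℕ} {w : V}


theorem M9_Qs_subset (y : V) : Qs G S w y ⊆ nb G S w := by
  intro x hx
  unfold Qs at hx
  rw [mem_filter] at hx
  rw [mem_nb]
  exact ⟨hx.1, hx.2.1⟩

theorem M9_mem_Qf {R : Finset V} {f : V → ℕ} {u x : V} :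
    x ∈ Qf G R f u ↔ x ∈ R ∧ G.Adj u x ∧ f x < f u := by
  unfold Qf; rw [mem_filter]

/-- two sets without cross edges -/
theorem M9_gam {y y' : V}
    (h : ∀ x ∈ Qs G S w y \ Qs G S w y', ∀ x' ∈ Qs G S w y' \ Qs G S w y, ¬ G.Adj x x') :
    gam k A B j G S w (Qs G S w y) + gam k A B j G S w (Qs G S w y')
      = gam k A B j G S w (Qs G S w y ∪ Qs G S w y')
        + gam k A B j G S w (Qs G S w y ∩ Qs G S w y') := by
  have h1 := K_sdiff_union_of_no_cross G (nb G S w) (Qs G S w y) (Qs G S w y') h (j + 2)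
  have h2 := card_union_add_card_inter (Qs G S w y) (Qs G S w y')
  have h3 : ((Qs G S w y ∪ Qs G S w y').card : ℤ) + ((Qs G S w y ∩ Qs G S w y').card : ℤ)
      = ((Qs G S w y).card : ℤ) + ((Qs G S w y').card : ℤ) := by exact_mod_cast h2
  unfold gam
  linear_combination (-1) * h1 - es k (A + 1) B (j + 2) * h3

/-- the case `X_w = 1` -/
theorem ml_one (h : ML V j G S k A B w) (hX : (Dv k (A + 1) B G S) w = (MS k (A + 1) B S) + 1) : False := by
  have hE4 := id_E4 G S h.hw k (A + 1) B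
  have hNH := card_NH G S h.hw k (A + 1) B
  obtain ⟨hPL, hkap⟩ := ml_L h
  obtain ⟨-, hlam, -⟩ := ml_main h
  have hk1 : (1 : ℤ) ≤ k := by exact_mod_cast h.hk
  have hY := h.hY
  have hQ := h.hQ
  have hm1 := le_max_left (-(rS k (A + 1) B G S)) 0
  have hm0 := le_max_right (-(rS k (A + 1) B G S)) 0
  have hq0 : 0 ≤ ∑ y ∈ NH G S w, ((Qs G S w y).card : ℤ) :=
    sum_nonneg fun y _ => by positivity
  have hX1 : (Dv k (A + 1) B G S) w - (MS k (A + 1) B S) = 1 := by linarith
  rw [hX1] at hE4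
  have hm : 1 ≤ (K G (NH G S w) 2) := by linarith
  have hQneg : Phi k (A + 1) B (j + 2) G S < 0 := by
    have : 0 ≤ (es k A B (j + 1)) * (max (-(rS k (A + 1) B G S)) 0) := mul_nonneg (by linarith) hm0
    linarith
  -- the ordering
  obtain ⟨f, hf, -⟩ := exists_order (NH G S w) (fun _ => 0)
  have h2 := id_two_le G S h.hw k A B j f hf
  rw [hX1] at h2
  have hmm : (K G (NH G S w) 2) = ∑ y ∈ NH G S w, ((Qf G (NH G S w) f y).card : ℤ) := by
    rw [show (2 : ℕ) = 1 + 1 from rfl, K_last G (NH G S w) f hf 1]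
    exact sum_congr rfl fun y _ => K_one G _
  -- an edge with maximal `a`
  set P : Finset (Σ _ : V, V) := (NH G S w).sigma (fun y => Qf G (NH G S w) f y) with hP
  have hPc : (P.card : ℤ) = (K G (NH G S w) 2) := by
    rw [hmm, hP, card_sigma]; push_cast; rfl
  have hPne : P.Nonempty := by
    rw [← card_pos]
    have : (0 : ℤ) < P.card := by rw [hPc]; linarith
    exact_mod_cast this
  obtain ⟨e, heP, hemax⟩ := exists_max_image P
    (fun p => aa k A B j G S w (Qs G S w p.1 ∪ Qs G S w p.2)) hPne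
  obtain ⟨y, y'⟩ := e
  rw [hP, mem_sigma] at heP
  obtain ⟨hy, hyf⟩ := heP
  rw [M9_mem_Qf] at hyf
  obtain ⟨hy', hadj, hlt⟩ := hyf
  simp only at hy hy' hadj hlt hemax
  have hne : y ≠ y' := hadj.ne
  set a : ℤ := aa k A B j G S w (Qs G S w y ∪ Qs G S w y') with ha
  -- the sum of the `a`
  have hsa : ∑ u ∈ NH G S w, ∑ u' ∈ Qf G (NH G S w) f u,
      aa k A B j G S w (Qs G S w u ∪ Qs G S w u') ≤ (K G (NH G S w) 2) * a := by
    have h3 : ∑ u ∈ NH G S w, ∑ u' ∈ Qf G (NH G S w) f u,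
        aa k A B j G S w (Qs G S w u ∪ Qs G S w u')
        = ∑ p ∈ P, aa k A B j G S w (Qs G S w p.1 ∪ Qs G S w p.2) := by
      rw [hP, sum_sigma]
    rw [h3, ← hPc]
    have h4 := sum_le_card_nsmul P
      (fun p => aa k A B j G S w (Qs G S w p.1 ∪ Qs G S w p.2)) a hemax
    rw [nsmul_eq_mul] at h4
    exact h4
  -- the sum of the `γ`
  have hcross := ml_no_cross h hm hX hy hy' hne
  have hgam := M9_gam (k := k) (A := A) (B := B) (j := j) hcross
  have hy'e : y' ∈ (NH G S w).erase y := mem_erase.2 ⟨hne.symm, hy'⟩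
  have hsg : ∑ u ∈ NH G S w, gam k A B j G S w (Qs G S w u)
      = gam k A B j G S w (Qs G S w y ∪ Qs G S w y')
        + gam k A B j G S w (Qs G S w y ∩ Qs G S w y')
        + ∑ u ∈ ((NH G S w).erase y).erase y', gam k A B j G S w (Qs G S w u) := by
    rw [← hgam, ← add_sum_erase _ _ hy, ← add_sum_erase _ _ hy'e]
    ring
  -- the graph `G_Q`
  have hQe : Qs G S w y ∪ Qs G S w y' ⊆ nb G S w :=
    union_subset (M9_Qs_subset y) (M9_Qs_subset y')
  have htB := ml_tB h hm hy hy' hadj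
  have hcu := card_Q_union G S h.hw k (A + 1) B hy hy' hadj
  have hyS : y ∈ S := by unfold NH at hy; exact (mem_filter.1 hy).1
  have hyS' : y' ∈ S := by unfold NH at hy'; exact (mem_filter.1 hy').1
  have hce := h.hc y hyS y' hyS' hadj
  set t : ℤ := ((Qs G S w y ∪ Qs G S w y').card : ℤ) - (k + 1 - (Dv k (A + 1) B G S) w) with ht
  have ht0 : 0 ≤ t := by
    have : (0 : ℤ) ≤ ((nb G (NH G S w) y ∩ nb G (NH G S w) y').card : ℤ) := by positivity
    rw [ht, hcu]
    linarith
  have hG := x1_gS G S (w := w) k A B hQe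
  have hR := x1_rS G S (w := w) k A B hQe
  have hF := x1_Phi G S (w := w) k A B j hQe
  have hF' := x1_Phi' G S (w := w) k A B j hQe
  rw [← ht] at hG hR hF hF'
  rw [← ha] at hF'
  have hG0 : 0 ≤ gS k A B (dst G w (Qs G S w y ∪ Qs G S w y')) (insert w (nb G S w)) := by
    rw [hG]; linarith
  have hR0 : 0 ≤ rS k A B (dst G w (Qs G S w y ∪ Qs G S w y')) (insert w (nb G S w)) := by
    rw [hR]; linarith
  have hcard : (insert w (nb G S w)).card < S.card := by
    apply card_lt_card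
    rw [ssubset_iff_of_subset]
    · refine ⟨y, hyS, ?_⟩
      unfold NH at hy
      rw [mem_filter] at hy
      rw [mem_insert, mem_nb, not_or]
      exact ⟨hy.2.2, fun h' => hy.2.1 h'.2⟩
    · exact insert_subset h.hw (nb_subset G S w)
  have hB : 0 ≤ Phi k A B (j + 2) (dst G w (Qs G S w y ∪ Qs G S w y'))
      (insert w (nb G S w)) :=
    Phi_nonneg (fun m => h.th2 _ m (by exact_mod_cast hcard)) h.hk hR0 hG0
  have hB' : 0 ≤ Phi k A B (j + 1) (dst G w (Qs G S w y ∪ Qs G S w y'))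
      (insert w (nb G S w)) :=
    Phi_nonneg (fun m => h.th1 _ m) h.hk hR0 hG0
  rw [hF] at hB
  rw [hF'] at hB'
  -- conclusion
  have hcN : ((((NH G S w).erase y).erase y').card : ℤ) = k - 2 := by
    rw [card_erase_of_mem hy'e, card_erase_of_mem hy]
    have h5 : 2 ≤ (NH G S w).card := by
      have : ({y, y'} : Finset V) ⊆ NH G S w := by
        intro x hx
        rw [mem_insert, mem_singleton] at hx
        rcases hx with rfl | rfl
        · exact hy
        · exact hy'
      have h6 := card_le_card this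
      rw [card_pair hne] at h6
      exact h6
    have h7 : (((NH G S w).card - 1 - 1 : ℕ) : ℤ) = ((NH G S w).card : ℤ) - 2 := by omega
    rw [h7, hNH]
    linarith
  have hlamt : 0 ≤ (es k A B (j + 1)) * t := mul_nonneg (by linarith) ht0
  rcases lt_or_ge 0 a with hpos | hneg
  · -- `a > 0`
    have hg0 : ∀ Q : Finset V, Q ⊆ nb G S w → 0 ≤ gam k A B j G S w Q := by
      intro Q hQ
      refine le_trans (sum_nonneg fun x hx => ?_) (gam_ge G S k A B j hQ)
      have := ml_step1 h hm hy hy' hadj hpos (hQ hx)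
      linarith
    have h5 : 0 ≤ ∑ u ∈ ((NH G S w).erase y).erase y', gam k A B j G S w (Qs G S w u) :=
      sum_nonneg fun u _ => hg0 _ (M9_Qs_subset u)
    have h6 := hg0 (Qs G S w y ∩ Qs G S w y') (inter_subset_left.trans (M9_Qs_subset y))
    have h7 : (K G (NH G S w) 2) * a ≤ k * a := mul_le_mul_of_nonneg_right (ml_num h hm).mm_le hpos.le
    have h8 : (k : ℤ) * ((Phi k A B (j + 1) G (nb G S w)) + (es k A B (j + 1)) * t - a) ≥ 0 := mul_nonneg (by linarith) hB'
    linarith
  · -- `a ≤ 0`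
    have h5 : -(k - 2 : ℤ) * (Phi k A B (j + 1) G (nb G S w))
        ≤ ∑ u ∈ ((NH G S w).erase y).erase y', gam k A B j G S w (Qs G S w u) := by
      have h6 := card_nsmul_le_sum (((NH G S w).erase y).erase y')
        (fun u => gam k A B j G S w (Qs G S w u)) (-(Phi k A B (j + 1) G (nb G S w)))
        (fun u _ => ml_gam h (M9_Qs_subset u))
      rw [nsmul_eq_mul, hcN] at h6
      linarith
    have h6 := ml_gam h (inter_subset_left.trans (M9_Qs_subset y) :
      Qs G S w y ∩ Qs G S w y' ⊆ nb G S w)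
    have h7 : (K G (NH G S w) 2) * a ≤ 0 := mul_nonpos_of_nonneg_of_nonpos (by linarith) hneg
    have h8 : (0 : ℤ) ≤ k * ((es k A B (j + 1)) * t) := mul_nonneg (by linarith) hlamt
    linarith

end Pool.Agent.Helper88.LSr
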